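import Mathlib

/-!
# Constant rate distributions on the finite subsets of the positive integers

`S = Finset ℕ+`, ordered by inclusion.  A probability distribution on the countable set `S` is a
`PMF (Finset ℕ+)`.  We show that the only distribution on `S` with
`Pr (X = x) = α * Pr (X ⊇ x)` for all `x` (for some real constant `α`) is the point mass at `∅`
(with `α = 1`).  So no distribution with full support has constant rate.
-/

namespace Pool.Agent.Results.MP_e3a9f0_pr.NoConstantRate

open scoped ENNReal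

/-- The probability density function `f x = Pr (X = x)` of the distribution `p` on `S`. -/
noncomputable def density (p : PMF (Finset ℕ+)) (x : Finset ℕ+) : ℝ := (p x).toReal

/-- The upper probability function `F x = Pr (X ⊇ x)` of the distribution `p` on `S`. -/
noncomputable def upper (p : PMF (Finset ℕ+)) (x : Finset ℕ+) : ℝ :=
  (p.toOuterMeasure {y | x ⊆ y}).toReal

/-- `F` as an extended nonnegative sum. -/
noncomputable def eF (p : PMF (Finset ℕ+)) (x : Finset ℕ+) : ℝ≥0∞ :=
  ∑' y, if x ⊆ y then p y else 0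

/-- The weighted sums `M k x = ∑_{y ⊇ x} k ^ (#y - #x) * f y`. -/
noncomputable def eM (p : PMF (Finset ℕ+)) (k : ℕ) (x : Finset ℕ+) : ℝ≥0∞ :=
  ∑' y, if x ⊆ y then (k : ℝ≥0∞) ^ (y.card - x.card) * p y else 0

lemma toOuterMeasure_eq (p : PMF (Finset ℕ+)) (x : Finset ℕ+) :
    p.toOuterMeasure {y | x ⊆ y} = eF p x := by
  classical
  rw [PMF.toOuterMeasure_apply, eF]
  refine tsum_congr fun y => ?_
  by_cases h : x ⊆ y <;> simp [Set.indicator, h]

lemma eF_le_one (p : PMF (Finset ℕ+)) (x : Finset ℕ+) : eF p x ≤ 1 := by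
  rw [← p.tsum_coe, eF]
  refine ENNReal.tsum_le_tsum fun y => ?_
  split_ifs <;> simp

lemma eF_empty (p : PMF (Finset ℕ+)) : eF p ∅ = 1 := by
  rw [← p.tsum_coe, eF]
  simp

lemma eM_one (p : PMF (Finset ℕ+)) (x : Finset ℕ+) : eM p 1 x = eF p x := by
  simp [eM, eF]

/-- `(k+1)^(#y-#x) = ∑_{x ⊆ z ⊆ y} k^(#z-#x)`. -/
lemma pow_card_sub (k : ℕ) {x y : Finset ℕ+} (hxy : x ⊆ y) :
    ((k : ℝ≥0∞) + 1) ^ (y.card - x.card)
      = ∑ z ∈ Finset.Icc x y, (k : ℝ≥0∞) ^ (z.card - x.card) := by
  classical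
  have h1 := Finset.sum_pow_mul_eq_add_pow (k : ℝ≥0∞) 1 (y \ x)
  rw [Finset.card_sdiff_of_subset hxy] at h1
  rw [← h1, Finset.Icc_eq_image_powerset hxy, Finset.sum_image]
  · refine Finset.sum_congr rfl fun t ht => ?_
    have hd : Disjoint x t := by
      rw [Finset.mem_powerset] at ht
      exact Finset.disjoint_of_subset_right ht Finset.disjoint_sdiff
    simp [Finset.card_union_of_disjoint hd]
  · intro s hs t ht hst
    simp only [Finset.coe_powerset, Set.mem_preimage, Set.mem_powerset_iff, Finset.coe_subset] at hs ht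
    have hds : Disjoint x s := Finset.disjoint_of_subset_right hs Finset.disjoint_sdiff
    have hdt : Disjoint x t := Finset.disjoint_of_subset_right ht Finset.disjoint_sdiff
    have h3 : (x ∪ s) \ x = (x ∪ t) \ x := by
      simpa using congrArg (fun u => u \ x) hst
    rwa [Finset.union_sdiff_cancel_left hds, Finset.union_sdiff_cancel_left hdt] at h3

lemma eM_succ (p : PMF (Finset ℕ+)) (k : ℕ) (x : Finset ℕ+) :
    eM p (k + 1) x = ∑' z, if x ⊆ z then (k : ℝ≥0∞) ^ (z.card - x.card) * eF p z else 0 := by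
  classical
  have h1 : eM p (k + 1) x
      = ∑' y, ∑' z, if x ⊆ z ∧ z ⊆ y then (k : ℝ≥0∞) ^ (z.card - x.card) * p y else 0 := by
    rw [eM]
    refine tsum_congr fun y => ?_
    by_cases hxy : x ⊆ y
    · rw [if_pos hxy]
      push_cast
      rw [pow_card_sub k hxy, Finset.sum_mul]
      rw [tsum_eq_sum (s := Finset.Icc x y)]
      · refine Finset.sum_congr rfl fun z hz => ?_
        rw [Finset.mem_Icc] at hz
        rw [if_pos ⟨hz.1, hz.2⟩]
      · intro z hz
        rw [Finset.mem_Icc] at hz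
        exact if_neg hz
    · rw [if_neg hxy]
      symm
      rw [ENNReal.tsum_eq_zero]
      intro z
      refine if_neg fun h => hxy (h.1.trans h.2)
  rw [h1, ENNReal.tsum_comm]
  refine tsum_congr fun z => ?_
  by_cases hxz : x ⊆ z
  · rw [if_pos hxz, eF, ← ENNReal.tsum_mul_left]
    refine tsum_congr fun y => ?_
    by_cases hzy : z ⊆ y <;> simp [hxz, hzy]
  · rw [if_neg hxz, ENNReal.tsum_eq_zero]
    intro y
    exact if_neg fun h => hxz h.1

lemma mul_eM_succ (p : PMF (Finset ℕ+)) (a : ℝ≥0∞) (h : ∀ x, p x = a * eF p x) (k : ℕ)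
    (x : Finset ℕ+) : a * eM p (k + 1) x = eM p k x := by
  rw [eM_succ, ← ENNReal.tsum_mul_left, eM]
  refine tsum_congr fun z => ?_
  by_cases hxz : x ⊆ z
  · rw [if_pos hxz, if_pos hxz, h z]
    ring
  · simp [hxz]

lemma pow_mul_eM (p : PMF (Finset ℕ+)) (a : ℝ≥0∞) (h : ∀ x, p x = a * eF p x) (k : ℕ)
    (x : Finset ℕ+) : a ^ k * eM p (k + 1) x = eF p x := by
  induction k with
  | zero => simp [eM_one]
  | succ k ih =>
    rw [pow_succ, mul_assoc, mul_eM_succ p a h, ih]

lemma mul_eM_singleton_le (p : PMF (Finset ℕ+)) (k : ℕ) (i : ℕ+) :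
    (k : ℝ≥0∞) * eM p k {i} ≤ eM p k ∅ := by
  rw [eM, ← ENNReal.tsum_mul_left, eM]
  refine ENNReal.tsum_le_tsum fun y => ?_
  by_cases hy : ({i} : Finset ℕ+) ⊆ y
  · rw [if_pos hy, if_pos (Finset.empty_subset y)]
    have hpos : 1 ≤ y.card := by
      have := Finset.card_le_card hy
      simpa using this
    obtain ⟨n, hn⟩ : ∃ n, y.card = n + 1 := ⟨y.card - 1, by omega⟩
    rw [hn]
    simp only [Finset.card_singleton, Finset.card_empty, Nat.add_sub_cancel, Nat.sub_zero]
    rw [pow_succ]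
    apply le_of_eq
    ring
  · simp [hy]

lemma eF_singleton (p : PMF (Finset ℕ+)) (a : ℝ≥0∞) (h : ∀ x, p x = a * eF p x) (i : ℕ+) :
    eF p {i} = 0 := by
  have key : ∀ k : ℕ, ((k + 1 : ℕ) : ℝ≥0∞) * eF p {i} ≤ 1 := by
    intro k
    have h1 := pow_mul_eM p a h k {i}
    have h2 := pow_mul_eM p a h k ∅
    rw [eF_empty] at h2
    calc ((k + 1 : ℕ) : ℝ≥0∞) * eF p {i}
        = a ^ k * (((k + 1 : ℕ) : ℝ≥0∞) * eM p (k + 1) {i}) := by rw [← h1]; ring
      _ ≤ a ^ k * eM p (k + 1) ∅ := by gcongr; exact mul_eM_singleton_le p (k + 1) i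
      _ = 1 := h2
  by_contra hne
  obtain ⟨n, hn⟩ := ENNReal.exists_nat_mul_gt hne ENNReal.one_ne_top
  have h3 := key n
  have h4 : (n : ℝ≥0∞) * eF p {i} ≤ ((n + 1 : ℕ) : ℝ≥0∞) * eF p {i} := by
    gcongr
    simp
  exact absurd (hn.trans_le (h4.trans h3)) (lt_irrefl _)

/-- Every constant rate distribution on the finite subsets of `ℕ+` is the point mass at `∅`. -/
theorem result (p : PMF (Finset ℕ+)) (α : ℝ) :
    (∀ x, density p x = α * upper p x) ↔ (p = PMF.pure ∅ ∧ α = 1) := by
  classical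
  constructor
  · intro h
    have hF1 : upper p ∅ = 1 := by
      rw [upper, toOuterMeasure_eq, eF_empty]; simp
    have hα : α = density p ∅ := by
      rw [h ∅, hF1, mul_one]
    have hα0 : 0 ≤ α := by rw [hα]; exact ENNReal.toReal_nonneg
    have h' : ∀ x, p x = ENNReal.ofReal α * eF p x := by
      intro x
      have hx := h x
      rw [density, upper, toOuterMeasure_eq] at hx
      have hfin : eF p x ≠ ⊤ := ne_top_of_le_ne_top ENNReal.one_ne_top (eF_le_one p x)
      rw [← ENNReal.ofReal_toReal (p.apply_ne_top x), hx, ENNReal.ofReal_mul hα0,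
        ENNReal.ofReal_toReal hfin]
    have hz : ∀ x, x ≠ ∅ → p x = 0 := by
      intro x hx
      obtain ⟨i, hi⟩ := Finset.nonempty_iff_ne_empty.mpr hx
      have h0 := eF_singleton p _ h' i
      rw [eF, ENNReal.tsum_eq_zero] at h0
      have h1 := h0 x
      rwa [if_pos (Finset.singleton_subset_iff.mpr hi)] at h1
    have he : p ∅ = 1 := by
      have := p.tsum_coe
      rwa [tsum_eq_single ∅ hz] at this
    refine ⟨?_, ?_⟩
    · ext x
      rw [PMF.pure_apply]
      by_cases hx : x = ∅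
      · rw [if_pos hx, hx, he]
      · rw [if_neg hx, hz x hx]
    · rw [hα, density, he]; simp
  · rintro ⟨rfl, rfl⟩ x
    rw [density, upper, toOuterMeasure_eq, eF, PMF.pure_apply, one_mul]
    congr 1
    rw [tsum_eq_single ∅]
    · by_cases hx : x = ∅
      · simp [hx]
      · have : ¬ x ⊆ ∅ := fun h => hx (Finset.subset_empty.mp h)
        simp [hx, this]
    · intro y hy
      simp [hy]

/-- The literal negated form of the question: no distribution with full support on the finite
subsets of `ℕ+` has constant rate. -/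
theorem no_full_support_constant_rate :
    ¬ ∃ (p : PMF (Finset ℕ+)) (α : ℝ),
      (∀ x, 0 < density p x) ∧ ∀ x, density p x = α * upper p x := by
  rintro ⟨p, α, hpos, h⟩
  obtain ⟨rfl, -⟩ := (result p α).mp h
  have := hpos {1}
  simp [density, PMF.pure_apply] at this

end Pool.Agent.Results.MP_e3a9f0_pr.NoConstantRate
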